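import Pool.Agent.W819.NC.Final

/-!
Critical bond percolation on the square lattice (the random-cluster model with `q = 1` at its
self-dual point): the two-point functions of the nesting statistics of the interfaces.

`layers n v ω` is the minimal number of colour changes of a path from the vertex `v` to the sup
distance `n` of `v`, i.e. the number of nested alternating (open / dual-open) layers around `v`.

Definitions: `sqLattice`, `bondLaw`, `hlf` (`= 1/2`), `openGraph` in `Pool.Agent.H974R2.Model`,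
`Pool.Agent.H974R2.Infinite`; `Pt`, `Corner`, `Free`, `Change` in `Pool.Agent.H863R2.NL.Defs`;
`ReachFrom`, `dist2`, `layers` in `Pool.Agent.W819.EN.Layers`; `Psi` in `Pool.Agent.W819.EN.Defs`:
`Psi t = 3 / (4 π²) (π² / 9 - arccos² (t / 2))` for `t ≤ 2` and
`Psi t = 3 / (4 π²) (π² / 9 + arcosh² (t / 2))` for `t ≥ 2`.
-/

namespace Pool.Agent.Results.MP_216314_pr.NestingTwoPoint

open MeasureTheory H974 Pool.Agent.W819.EN

/-- For all `t₁, t₂ > 0`, up to constants, `E (t₁ ^ N_v t₂ ^ N_w)` is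
`(n / d) ^ Psi (t₁ t₂) * d ^ (Psi t₁ + Psi t₂)`, `d` being the sup distance of `v` and `w`. -/
theorem result (t₁ t₂ : ℝ) (h₁ : 0 < t₁) (h₂ : 0 < t₂) : ∃ c C : ℝ, 0 < c ∧ 0 < C ∧
    ∀ (v w : ℤ × ℤ) (n d : ℕ), 1 ≤ d → d ≤ n → max |v.1 - w.1| |v.2 - w.2| = d →
      c * (((n : ℝ) / d) ^ Psi (t₁ * t₂) * (d : ℝ) ^ (Psi t₁ + Psi t₂)) ≤
        ∫ ω, t₁ ^ layers n v ω * t₂ ^ layers n w ω ∂(bondLaw hlf) ∧
      ∫ ω, t₁ ^ layers n v ω * t₂ ^ layers n w ω ∂(bondLaw hlf) ≤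
        C * (((n : ℝ) / d) ^ Psi (t₁ * t₂) * (d : ℝ) ^ (Psi t₁ + Psi t₂)) :=
  Pool.Agent.W819.NC.final t₁ t₂ h₁ h₂

end Pool.Agent.Results.MP_216314_pr.NestingTwoPoint
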